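import Pool.Agent.Helper83.RB.St

set_option autoImplicit false

/-! Module ASM of project RB (final assembly). -/

namespace Pool.Agent.Helper54.RB

open Pool.Agent.Helper83.RB

theorem hASM (hINN : StINN) (hSOL : StSOL) (hHAL : StHAL) (hGEN : StGEN) : StASM := by
  intro p d s t hp
  obtain ⟨C₁, hC₁⟩ := hINN p d s
  refine ⟨C₁ + p ^ (t + 1) * (2 * C₁ + 1) ^ 2, ?_⟩
  intro m G _ _ hexp hgen N _ hQ ι W _ _ ρ hρ hK
  have hexpN : ∀ g : N, g ^ p = 1 := fun g => Subtype.ext (by
    simpa using hexp (g : G))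
  have key : ∀ a b : ℕ, (⊤ : Subgroup G).lowerCentralSeries a = ⊥ → a ≤ b →
      (⊤ : Subgroup G).lowerCentralSeries b = ⊥ := fun a b h hab =>
    le_bot_iff.1 (h ▸ (⊤ : Subgroup G).lowerCentralSeries_antitone hab)
  by_cases ht : t = 0
  · subst ht
    rw [if_pos rfl]
    -- the quotient is trivial
    have hN : N = ⊤ := by
      rw [derivedSeries_zero] at hQ
      rw [eq_top_iff]
      intro g _
      have h1 : (QuotientGroup.mk g : G ⧸ N) ∈ (⊤ : Subgroup (G ⧸ N)) := Subgroup.mem_top _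
      rw [hQ, Subgroup.mem_bot, QuotientGroup.eq_one_iff] at h1
      exact h1
    obtain ⟨f, hf⟩ := hgen
    have hgenN : ∃ f' : Fin m → N, Subgroup.closure (Set.range f') = ⊤ := by
      refine ⟨fun i => ⟨f i, hN ▸ Subgroup.mem_top _⟩, ?_⟩
      rw [← Subgroup.map_subtype_inj, MonoidHom.map_closure, ← MonoidHom.range_eq_map,
        Subgroup.range_subtype, ← Set.range_comp]
      exact hf.trans hN.symm
    have h2 := hC₁ m N hexpN hgenN ι W ρ hρ hK
    have h3 : N.lowerCentralSeries (C₁ * (m + 1)) = ⊥ := by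
      rw [← Subgroup.top_subtype_lowerCentralSeries, h2, Subgroup.map_bot]
    have h4 : (⊤ : Subgroup G).lowerCentralSeries (C₁ * (m + 1)) = ⊥ := by
      rw [← hN]
      exact h3
    refine key _ _ h4 ?_
    rw [pow_one (m + 1)]
    exact Nat.mul_le_mul_right _ (Nat.le_add_right _ _)
  · rw [if_neg ht]
    set e := p ^ (t + 1) with he
    have he1 : 1 ≤ e := Nat.one_le_pow _ _ hp.out.pos
    -- the upper part
    have h1 : derivedSeries G t ≤ N := by
      have h2 := map_derivedSeries_le_derivedSeries (f := QuotientGroup.mk' N) t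
      rw [hQ] at h2
      have h3 := (Subgroup.map_le_iff_le_comap).1 h2
      intro x hx
      have h4 := h3 hx
      rw [Subgroup.mem_comap, Subgroup.mem_bot] at h4
      exact (QuotientGroup.eq_one_iff x).1 h4
    have h2 : (⊤ : Subgroup G).lowerCentralSeries e ≤ derivedSeries G (t + 1) := by
      have h3 := hSOL p G hexp (derivedSeries G) (fun i => derivedSeries_normal G i)
        (fun i => le_of_eq (derivedSeries_succ G i).symm) 0 (by simp) (t + 1)
      simpa using h3
    have h3 : (⊤ : Subgroup G).lowerCentralSeries e ≤ ⁅N, N⁆ := by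
      refine h2.trans ?_
      rw [derivedSeries_succ]
      exact Subgroup.commutator_mono h1 h1
    obtain ⟨f', hf'⟩ := hGEN p m e G hexp hgen N h3
    have h4 := hC₁ _ N hexpN ⟨f', hf'⟩ ι W ρ hρ hK
    set m' := (m + 1) ^ (e + 1) with hm'
    have h5 : N.lowerCentralSeries (C₁ * (m' + 1)) = ⊥ := by
      rw [← Subgroup.top_subtype_lowerCentralSeries, h4, Subgroup.map_bot]
    have h6 := hHAL G N e (C₁ * (m' + 1)) h3 h5
    refine key _ _ h6 ?_
    have hm1 : 1 ≤ m' := Nat.one_le_pow _ _ (Nat.succ_pos _)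
    have h7 : C₁ * (m' + 1) + 1 ≤ (2 * C₁ + 1) * m' := by nlinarith
    calc e * (C₁ * (m' + 1) + 1) ^ 2 ≤ e * ((2 * C₁ + 1) * m') ^ 2 :=
          Nat.mul_le_mul_left _ (Nat.pow_le_pow_left h7 2)
      _ = e * (2 * C₁ + 1) ^ 2 * (m + 1) ^ (2 * (e + 1)) := by
          rw [hm', mul_pow, ← pow_mul, mul_comm (e + 1) 2, mul_assoc]
      _ ≤ (C₁ + e * (2 * C₁ + 1) ^ 2) * (m + 1) ^ (2 * (e + 1)) :=
          Nat.mul_le_mul_right _ (Nat.le_add_left _ _)

end Pool.Agent.Helper54.RB
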